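import Mathlib

/-!
# Algebras in the signature of Heyting algebras, quasivarieties, varieties, primitivity
-/

set_option autoImplicit false

namespace Pool.Agent.Q300.Prim

/-- Terms in the signature `(∧, ∨, →, 0, 1)` over the variables `x₀, x₁, x₂, …`. -/
inductive Trm : Type
  | var (i : ℕ) : Trm
  | zero : Trm
  | one : Trm
  | and (s t : Trm) : Trm
  | or (s t : Trm) : Trm
  | imp (s t : Trm) : Trm

/-- An algebra in the signature `(∧, ∨, →, 0, 1)`. -/
structure Alg : Type 1 where
  carrier : Type
  and : carrier → carrier → carrier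
  or : carrier → carrier → carrier
  imp : carrier → carrier → carrier
  zero : carrier
  one : carrier

/-- A Heyting algebra as an algebra in the signature `(∧, ∨, →, 0, 1)`. -/
abbrev Alg.of (A : Type) [HeytingAlgebra A] : Alg where
  carrier := A
  and := fun a b => a ⊓ b
  or := fun a b => a ⊔ b
  imp := fun a b => a ⇨ b
  zero := ⊥
  one := ⊤

/-- The value of a term under an assignment. -/
def Alg.eval (B : Alg) (v : ℕ → B.carrier) : Trm → B.carrier
  | Trm.var i => v i
  | Trm.zero => B.zero
  | Trm.one => B.one
  | Trm.and s t => B.and (B.eval v s) (B.eval v t)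
  | Trm.or s t => B.or (B.eval v s) (B.eval v t)
  | Trm.imp s t => B.imp (B.eval v s) (B.eval v t)

/-- A quasi-identity `s₁ = t₁ & … & s_k = t_k ⟹ s = t`. -/
structure QuasiId where
  /-- the pairs `(s_i, t_i)` -/
  prem : List (Trm × Trm)
  /-- the pair `(s, t)` -/
  concl : Trm × Trm

/-- The identity `p.1 = p.2` holds in `B`. -/
def Alg.SatI (B : Alg) (p : Trm × Trm) : Prop := ∀ v : ℕ → B.carrier, B.eval v p.1 = B.eval v p.2

/-- The quasi-identity `q` holds in `B`. -/
def Alg.SatQ (B : Alg) (q : QuasiId) : Prop :=
  ∀ v : ℕ → B.carrier, (∀ p ∈ q.prem, B.eval v p.1 = B.eval v p.2) →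
    B.eval v q.concl.1 = B.eval v q.concl.2

/-- Quasivarieties: classes of algebras defined by sets of quasi-identities. -/
def IsQuasivariety (K : Set Alg) : Prop :=
  ∃ Q : Set QuasiId, K = {B | ∀ q ∈ Q, B.SatQ q}

/-- Varieties: classes of algebras defined by sets of identities. -/
def IsVariety (V : Set Alg) : Prop :=
  ∃ E : Set (Trm × Trm), V = {B | ∀ p ∈ E, B.SatI p}

/-- The quasivariety generated by `A`: all algebras satisfying every quasi-identity valid
in `A`. -/
def genQ (A : Alg) : Set Alg := {B | ∀ q : QuasiId, A.SatQ q → B.SatQ q}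

/-- A quasivariety `K` is primitive if every subquasivariety of `K` is a relative variety of `K`,
i.e. is the intersection of `K` with a variety. -/
def Primitive (K : Set Alg) : Prop :=
  ∀ K' : Set Alg, IsQuasivariety K' → K' ⊆ K → ∃ V : Set Alg, IsVariety V ∧ K' = K ∩ V

end Pool.Agent.Q300.Prim
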