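import Pool.Agent.H877R3.HSC.Core3
import Pool.Agent.Q300.Prim.Defs

/-!
# The finite criterion for primitivity
-/

set_option autoImplicit false

namespace Pool.Agent.Q300.Prim

open Pool.Agent.H877R3.HSC Pool.Agent.H877R3.HSC.RA

/-- Substitution. -/
def Trm.subst (σ : ℕ → Trm) : Trm → Trm
  | Trm.var i => σ i
  | Trm.zero => Trm.zero
  | Trm.one => Trm.one
  | Trm.and s t => Trm.and (s.subst σ) (t.subst σ)
  | Trm.or s t => Trm.or (s.subst σ) (t.subst σ)
  | Trm.imp s t => Trm.imp (s.subst σ) (t.subst σ)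

theorem eval_subst (B : Alg) (v : ℕ → B.carrier) (σ : ℕ → Trm) (t : Trm) :
    B.eval v (t.subst σ) = B.eval (fun i => B.eval v (σ i)) t := by
  induction t with
  | var i => rfl
  | zero => rfl
  | one => rfl
  | and s t hs ht => simp only [Trm.subst, Alg.eval, hs, ht]
  | or s t hs ht => simp only [Trm.subst, Alg.eval, hs, ht]
  | imp s t hs ht => simp only [Trm.subst, Alg.eval, hs, ht]

/-- Homomorphisms. -/
structure Hom (B C : Alg) (h : B.carrier → C.carrier) : Prop where
  and : ∀ a b, h (B.and a b) = C.and (h a) (h b)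
  or : ∀ a b, h (B.or a b) = C.or (h a) (h b)
  imp : ∀ a b, h (B.imp a b) = C.imp (h a) (h b)
  zero : h B.zero = C.zero
  one : h B.one = C.one

theorem Hom.eval {B C : Alg} {h : B.carrier → C.carrier} (hh : Hom B C h) (v : ℕ → B.carrier)
    (t : Trm) : h (B.eval v t) = C.eval (fun i => h (v i)) t := by
  induction t with
  | var i => rfl
  | zero => exact hh.zero
  | one => exact hh.one
  | and s t hs ht => simp only [Alg.eval, hh.and, hs, ht]
  | or s t hs ht => simp only [Alg.eval, hh.or, hs, ht]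
  | imp s t hs ht => simp only [Alg.eval, hh.imp, hs, ht]

theorem Hom.comp {B C D : Alg} {f : B.carrier → C.carrier} {g : C.carrier → D.carrier}
    (hg : Hom C D g) (hf : Hom B C f) : Hom B D (fun x => g (f x)) :=
  ⟨fun a b => by rw [hf.and, hg.and], fun a b => by rw [hf.or, hg.or],
    fun a b => by rw [hf.imp, hg.imp], by rw [hf.zero, hg.zero], by rw [hf.one, hg.one]⟩

/-- The term algebra. -/
abbrev TA : Alg := ⟨Trm, Trm.and, Trm.or, Trm.imp, Trm.zero, Trm.one⟩

theorem hom_eval (B : Alg) (v : ℕ → B.carrier) : Hom TA B (B.eval v) :=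
  ⟨fun _ _ => rfl, fun _ _ => rfl, fun _ _ => rfl, rfl, rfl⟩

theorem TA_eval (σ : ℕ → Trm) (t : Trm) : TA.eval σ t = t.subst σ := by
  induction t with
  | var i => rfl
  | zero => rfl
  | one => rfl
  | and s t hs ht => simp only [Alg.eval, Trm.subst, hs, ht]
  | or s t hs ht => simp only [Alg.eval, Trm.subst, hs, ht]
  | imp s t hs ht => simp only [Alg.eval, Trm.subst, hs, ht]

/-- A raw algebra (without the constant `1`) as an algebra in the full signature. -/
abbrev toAlg {X : Type} (R : RA X) : Alg := ⟨X, R.inf, R.sup, R.imp, R.bot, R.top⟩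

theorem toAlg_ofH (A : Type) [HeytingAlgebra A] : toAlg (ofH A) = Alg.of A := by
  have h : (ofH A).top = ⊤ := ofH_top A
  unfold toAlg Alg.of
  rw [h]
  rfl

theorem isHom_iff {X Y : Type} (R : RA X) (S : RA Y) (h : X → Y) :
    IsHom R S h ↔ Hom (toAlg R) (toAlg S) h :=
  ⟨fun hh => ⟨hh.inf, hh.sup, hh.imp, hh.bot, hh.top⟩, fun hh => ⟨hh.and, hh.or, hh.imp, hh.zero⟩⟩

theorem isHom_iff' {X : Type} (R : RA X) (A : Type) [HeytingAlgebra A] (h : X → A) :
    IsHom R (ofH A) h ↔ Hom (toAlg R) (Alg.of A) h := by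
  constructor
  · intro hh
    exact ⟨hh.inf, hh.sup, hh.imp, hh.bot, by rw [hh.top, ofH_top]⟩
  · intro hh
    exact ⟨hh.and, hh.or, hh.imp, hh.zero⟩

/-- Quasi-identities are inherited by algebras separated by homomorphisms. -/
theorem satQ_of_sep {B C : Alg}
    (hs : ∀ x y : B.carrier, x ≠ y → ∃ h : B.carrier → C.carrier, Hom B C h ∧ h x ≠ h y)
    {q : QuasiId} (hq : C.SatQ q) : B.SatQ q := by
  intro v hv
  by_contra hne
  obtain ⟨h, hh, hne⟩ := hs _ _ hne
  apply hne
  rw [hh.eval, hh.eval]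
  apply hq
  intro p hp
  rw [← hh.eval, ← hh.eval, hv p hp]

theorem satI_of_surj {B C : Alg} {h : C.carrier → B.carrier} (hs : Function.Surjective h)
    (hh : Hom C B h) {p : Trm × Trm} (hp : C.SatI p) : B.SatI p := by
  intro v
  choose w hw using hs
  have h1 := hp (fun i => w (v i))
  have h2 := congrArg h h1
  rw [hh.eval, hh.eval] at h2
  simpa only [hw] using h2

theorem satI_of_inj {B C : Alg} {h : B.carrier → C.carrier} (hs : Function.Injective h)
    (hh : Hom B C h) {p : Trm × Trm} (hp : C.SatI p) : B.SatI p := by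
  intro v
  apply hs
  rw [hh.eval, hh.eval]
  exact hp _

theorem satQ_of_inj {B C : Alg} {h : B.carrier → C.carrier} (hs : Function.Injective h)
    (hh : Hom B C h) {q : QuasiId} (hq : C.SatQ q) : B.SatQ q :=
  satQ_of_sep (fun _ _ hxy => ⟨h, hh, fun h' => hxy (hs h')⟩) hq

/-- The diagram of a finite algebra. -/
noncomputable def diag {m : ℕ} (R : RA (Fin m)) : List (Trm × Trm) :=
  ((Finset.univ : Finset (Fin m × Fin m)).toList.map fun p =>
    (Trm.var (R.inf p.1 p.2), Trm.and (Trm.var p.1) (Trm.var p.2))) ++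
  (((Finset.univ : Finset (Fin m × Fin m)).toList.map fun p =>
    (Trm.var (R.sup p.1 p.2), Trm.or (Trm.var p.1) (Trm.var p.2))) ++
  (((Finset.univ : Finset (Fin m × Fin m)).toList.map fun p =>
    (Trm.var (R.imp p.1 p.2), Trm.imp (Trm.var p.1) (Trm.var p.2))) ++
  [(Trm.var R.bot, Trm.zero)]))

theorem diag_iff {m : ℕ} (R : RA (Fin m)) {Y : Type} (S : RA Y) (w : ℕ → Y) :
    (∀ p ∈ diag R, (toAlg S).eval w p.1 = (toAlg S).eval w p.2) ↔ IsHom R S (fun i => w i) := by
  unfold diag
  simp only [List.mem_append, List.mem_map, Finset.mem_toList, Finset.mem_univ, true_and,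
    List.mem_singleton]
  constructor
  · intro h
    refine ⟨fun a b => ?_, fun a b => ?_, fun a b => ?_, ?_⟩
    · exact h _ (Or.inl ⟨(a, b), rfl⟩)
    · exact h _ (Or.inr (Or.inl ⟨(a, b), rfl⟩))
    · exact h _ (Or.inr (Or.inr (Or.inl ⟨(a, b), rfl⟩)))
    · exact h _ (Or.inr (Or.inr (Or.inr rfl)))
  · rintro h p (⟨q, rfl⟩ | ⟨q, rfl⟩ | ⟨q, rfl⟩ | rfl)
    · exact h.inf q.1 q.2
    · exact h.sup q.1 q.2
    · exact h.imp q.1 q.2
    · exact h.bot

/-- Finite algebras in the quasivariety generated by `S` are separated by homomorphisms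
to `S`. -/
theorem sep_of_genQ {m : ℕ} (R : RA (Fin m)) {Y : Type} (S : RA Y)
    (h : ∀ q : QuasiId, (toAlg S).SatQ q → (toAlg R).SatQ q) : Sep R S := by
  intro x y hxy
  by_contra hno
  push Not at hno
  have h1 := h ⟨diag R, (Trm.var x, Trm.var y)⟩ (fun w hw => by
    have := hno _ ((diag_iff R S w).1 hw)
    exact this)
  have hm : 0 < m := lt_of_le_of_lt (Nat.zero_le _) x.2
  have h2 := h1 (fun i => if h : i < m then (⟨i, h⟩ : Fin m) else ⟨0, hm⟩) (by
    refine (diag_iff R R _).2 ?_
    have : (fun i : Fin m => (if h : (i : ℕ) < m then (⟨i, h⟩ : Fin m) else ⟨0, hm⟩)) =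
        fun i => i := by
      funext i; simp
    rw [this]
    exact ⟨fun _ _ => rfl, fun _ _ => rfl, fun _ _ => rfl, rfl⟩)
  apply hxy
  simpa [Alg.eval] using h2

theorem genQ_of_sep {X Y : Type} {R : RA X} {S : RA Y} (h : Sep R S) :
    toAlg R ∈ genQ (toAlg S) := fun _ hq => satQ_of_sep (fun x y hxy => by
  obtain ⟨f, hf, hne⟩ := h x y hxy
  exact ⟨f, (isHom_iff R S f).1 hf, hne⟩) hq

/-- The criterion. -/
def CritP (A : Type) [HeytingAlgebra A] (N₁ N₂ : ℕ) : Prop :=
  ∀ m ≤ N₁, ∀ l ≤ N₂, ∀ (B : RA (Fin m)) (C : RA (Fin l)), Sep B (ofH A) → Sep C (ofH A) →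
    (∃ g : Fin l → Fin m, Function.Surjective g ∧ IsHom C B g) → Sep B C

theorem critP_of_primitive {A : Type} [HeytingAlgebra A] (hP : Primitive (genQ (Alg.of A)))
    (N₁ N₂ : ℕ) : CritP A N₁ N₂ := by
  intro m _ l _ B C hB hC ⟨g, gs, hg⟩
  have hB' : toAlg B ∈ genQ (Alg.of A) := by rw [← toAlg_ofH]; exact genQ_of_sep hB
  have hC' : toAlg C ∈ genQ (Alg.of A) := by rw [← toAlg_ofH]; exact genQ_of_sep hC
  obtain ⟨V, ⟨E, rfl⟩, hV⟩ := hP (genQ (toAlg C)) ⟨{q | (toAlg C).SatQ q}, rfl⟩
    (fun D hD q hq => hD q (hC' q hq))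
  have h1 : toAlg C ∈ genQ (toAlg C) := fun q hq => hq
  rw [hV] at h1
  have h2 : toAlg B ∈ genQ (toAlg C) := by
    rw [hV]
    exact ⟨hB', fun p hp => satI_of_surj gs ((isHom_iff C B g).1 hg) (h1.2 p hp)⟩
  exact sep_of_genQ B C h2

/-- Truncation of variables. -/
def tr (k : ℕ) : ℕ → Trm := fun i => if i < k then Trm.var i else Trm.zero

theorem exists_bd (t : Trm) : ∃ k, ∀ k' ≥ k, t.subst (tr k') = t := by
  induction t with
  | var i => exact ⟨i + 1, fun k' h => by simp [Trm.subst, tr]; omega⟩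
  | zero => exact ⟨0, fun _ _ => rfl⟩
  | one => exact ⟨0, fun _ _ => rfl⟩
  | and A B hA hB =>
    obtain ⟨a, ha⟩ := hA
    obtain ⟨b, hb⟩ := hB
    exact ⟨max a b, fun k' h => by
      simp only [Trm.subst]; rw [ha k' (le_trans (le_max_left _ _) h),
        hb k' (le_trans (le_max_right _ _) h)]⟩
  | or A B hA hB =>
    obtain ⟨a, ha⟩ := hA
    obtain ⟨b, hb⟩ := hB
    exact ⟨max a b, fun k' h => by
      simp only [Trm.subst]; rw [ha k' (le_trans (le_max_left _ _) h),
        hb k' (le_trans (le_max_right _ _) h)]⟩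
  | imp A B hA hB =>
    obtain ⟨a, ha⟩ := hA
    obtain ⟨b, hb⟩ := hB
    exact ⟨max a b, fun k' h => by
      simp only [Trm.subst]; rw [ha k' (le_trans (le_max_left _ _) h),
        hb k' (le_trans (le_max_right _ _) h)]⟩

theorem exists_bd_list (L : List (Trm × Trm)) :
    ∃ k, ∀ k' ≥ k, ∀ p ∈ L, p.1.subst (tr k') = p.1 ∧ p.2.subst (tr k') = p.2 := by
  induction L with
  | nil => exact ⟨0, by simp⟩
  | cons a s ih =>
    obtain ⟨k1, h1⟩ := ih
    obtain ⟨k2, h2⟩ := exists_bd a.1
    obtain ⟨k3, h3⟩ := exists_bd a.2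
    refine ⟨max k1 (max k2 k3), fun k' h p hp => ?_⟩
    rcases List.mem_cons.1 hp with rfl | hp
    · exact ⟨h2 k' (le_trans ((le_max_left _ _).trans (le_max_right _ _)) h),
        h3 k' (le_trans ((le_max_right _ _).trans (le_max_right _ _)) h)⟩
    · exact h1 k' (le_trans (le_max_left _ _) h) p hp

/-- Quotients of the term algebra by congruences of finite index. -/
theorem quot_ex (r : Trm → Trm → Prop) (hr : Equivalence r)
    (hand : ∀ a a' b b', r a a' → r b b' → r (Trm.and a b) (Trm.and a' b'))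
    (hor : ∀ a a' b b', r a a' → r b b' → r (Trm.or a b) (Trm.or a' b'))
    (himp : ∀ a a' b b', r a a' → r b b' → r (Trm.imp a b) (Trm.imp a' b'))
    (hone : r Trm.one (Trm.imp Trm.zero Trm.zero))
    {K : Type} [Fintype K] (g : Trm → K) (hg : ∀ φ ψ, g φ = g ψ → r φ ψ) :
    ∃ (l : ℕ) (R : RA (Fin l)) (cl : Trm → Fin l), l ≤ Fintype.card K ∧
      Function.Surjective cl ∧ Hom TA (toAlg R) cl ∧ ∀ φ ψ, cl φ = cl ψ ↔ r φ ψ := by
  let s : Setoid Trm := ⟨r, hr⟩
  have hinj : Function.Injective (fun q : Quotient s => g q.out) := by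
    intro q q' h
    have h1 : r q.out q'.out := hg _ _ h
    have h2 : (Quotient.mk s q.out) = Quotient.mk s q'.out := Quotient.sound h1
    simpa using h2
  have : Finite (Quotient s) := Finite.of_injective _ hinj
  have hcard : Nat.card (Quotient s) ≤ Fintype.card K := by
    rw [← Nat.card_eq_fintype_card]
    exact Nat.card_le_card_of_injective _ hinj
  let e : Quotient s ≃ Fin (Nat.card (Quotient s)) := Finite.equivFin _
  let cl : Trm → Fin (Nat.card (Quotient s)) := fun φ => e (Quotient.mk s φ)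
  let rep : Fin (Nat.card (Quotient s)) → Trm := fun i => (e.symm i).out
  have hrep : ∀ i, cl (rep i) = i := by
    intro i
    simp only [cl, rep, Quotient.out_eq, Equiv.apply_symm_apply]
  have hcl : ∀ φ ψ, cl φ = cl ψ ↔ r φ ψ := by
    intro φ ψ
    constructor
    · intro h
      exact Quotient.exact (e.injective h)
    · intro h
      exact congrArg e (Quotient.sound h)
  have hrr : ∀ φ, r φ (rep (cl φ)) := fun φ => (hcl _ _).1 (hrep _).symm
  refine ⟨Nat.card (Quotient s), ⟨fun i j => cl (Trm.and (rep i) (rep j)),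
    fun i j => cl (Trm.or (rep i) (rep j)), fun i j => cl (Trm.imp (rep i) (rep j)),
    cl Trm.zero⟩, cl, hcard, fun i => ⟨rep i, hrep i⟩, ⟨?_, ?_, ?_, ?_, ?_⟩, hcl⟩
  · intro a b
    exact (hcl _ _).2 (hand _ _ _ _ (hrr a) (hrr b))
  · intro a b
    exact (hcl _ _).2 (hor _ _ _ _ (hrr a) (hrr b))
  · intro a b
    exact (hcl _ _).2 (himp _ _ _ _ (hrr a) (hrr b))
  · rfl
  · exact (hcl _ _).2 (hr.trans hone (himp _ _ _ _ (hrr _) (hrr _)))

/-- Finite images of the term algebra. -/
theorem image_ex (D : Alg) (f : Trm → D.carrier) (hf : Hom TA D f)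
    (hone : D.one = D.imp D.zero D.zero)
    {K : Type} [Fintype K] (g : Trm → K) (hg : ∀ φ ψ, g φ = g ψ → f φ = f ψ) :
    ∃ (l : ℕ) (R : RA (Fin l)) (cl : Trm → Fin l) (ι : Fin l → D.carrier), l ≤ Fintype.card K ∧
      Function.Surjective cl ∧ Hom TA (toAlg R) cl ∧ Function.Injective ι ∧
      Hom (toAlg R) D ι ∧ ∀ φ, ι (cl φ) = f φ := by
  obtain ⟨l, R, cl, h1, h2, h3, h4⟩ := quot_ex (fun s t => f s = f t)
    ⟨fun _ => rfl, fun h => h.symm, fun h h' => h.trans h'⟩
    (fun a a' b b' h h' => by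
      change f (TA.and a b) = f (TA.and a' b')
      rw [hf.and, hf.and, h, h'])
    (fun a a' b b' h h' => by
      change f (TA.or a b) = f (TA.or a' b')
      rw [hf.or, hf.or, h, h'])
    (fun a a' b b' h h' => by
      change f (TA.imp a b) = f (TA.imp a' b')
      rw [hf.imp, hf.imp, h, h'])
    (by
      change f TA.one = f (TA.imp TA.zero TA.zero)
      rw [hf.imp, hf.one, hf.zero, hone]) g hg
  choose rep hrep using h2
  have key : ∀ φ, f (rep (cl φ)) = f φ := fun φ => (h4 _ _).1 (hrep _)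
  refine ⟨l, R, cl, fun i => f (rep i), h1, fun i => ⟨rep i, hrep i⟩, h3, ?_, ?_, key⟩
  · intro i j hij
    rw [← hrep i, ← hrep j, h4]
    exact hij
  · refine ⟨fun i j => ?_, fun i j => ?_, fun i j => ?_, ?_, ?_⟩
    · have hc : (toAlg R).and i j = cl (TA.and (rep i) (rep j)) := by rw [h3.and, hrep, hrep]
      rw [hc, key, hf.and]
    · have hc : (toAlg R).or i j = cl (TA.or (rep i) (rep j)) := by rw [h3.or, hrep, hrep]
      rw [hc, key, hf.or]
    · have hc : (toAlg R).imp i j = cl (TA.imp (rep i) (rep j)) := by rw [h3.imp, hrep, hrep]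
      rw [hc, key, hf.imp]
    · have hc : (toAlg R).zero = cl TA.zero := by rw [h3.zero]
      rw [hc, key, hf.zero]
    · have hc : (toAlg R).one = cl TA.one := by rw [h3.one]
      rw [hc, key, hf.one]

theorem primitive_of_critP {A : Type} [HeytingAlgebra A] {n : ℕ} (e : A ≃ Fin n)
    (hcrit : CritP A n (n ^ (n ^ n))) : Primitive (genQ (Alg.of A)) := by
  classical
  let _ : Fintype A := Fintype.ofEquiv _ e.symm
  have hcard : Fintype.card A = n := by
    rw [Fintype.card_congr e, Fintype.card_fin]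
  have hn : 0 < n := lt_of_le_of_lt (Nat.zero_le _) (e ⊥).2
  rintro K' ⟨Q, rfl⟩ hK'
  set K' : Set Alg := {B | ∀ q ∈ Q, B.SatQ q} with hK'def
  -- identities of `A`
  have hid : ∀ p : Trm × Trm, (Alg.of A).SatI p → ∀ D ∈ genQ (Alg.of A), D.SatI p := by
    intro p hp D hD v
    exact hD ⟨[], p⟩ (fun v _ => hp v) v (by simp)
  have hone : ∀ D ∈ genQ (Alg.of A), D.one = D.imp D.zero D.zero := by
    intro D hD
    exact hid (Trm.one, Trm.imp Trm.zero Trm.zero) (fun v => by simp [Alg.eval, Alg.of]) D hD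
      (fun _ => D.zero)
  -- term functions in `k` variables
  let tf : (k : ℕ) → Trm → ((Fin k → A) → A) := fun k t u =>
    (Alg.of A).eval (fun i => if h : i < k then u ⟨i, h⟩ else (⊥ : A)) t
  have htf : ∀ k s t, tf k s = tf k t → (Alg.of A).SatI (s.subst (tr k), t.subst (tr k)) := by
    intro k s t hst v
    simp only [eval_subst]
    have h1 := congrFun hst (fun i => v i)
    have h2 : (fun i => (Alg.of A).eval v (tr k i)) =
        (fun i => if h : i < k then (fun i : Fin k => v i) ⟨i, h⟩ else (⊥ : A)) := by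
      funext i
      by_cases h : i < k
      · simp [tr, h, Alg.eval]
      · simp [tr, h, Alg.eval]
    rw [h2]
    exact h1
  have htfcard : ∀ k, Fintype.card ((Fin k → A) → A) = n ^ (n ^ k) := by
    intro k; simp [Fintype.card_pi, hcard]
  refine ⟨{B | ∀ p ∈ {p : Trm × Trm | ∀ E ∈ K', E.SatI p}, B.SatI p}, ⟨_, rfl⟩, ?_⟩
  apply Set.Subset.antisymm
  · intro D hD
    exact ⟨hK' hD, fun p hp => hp D hD⟩
  · rintro D ⟨hDA, hDV⟩ q hq
    by_contra hno
    have hno' : ∃ v : ℕ → D.carrier, (∀ p ∈ q.prem, D.eval v p.1 = D.eval v p.2) ∧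
        D.eval v q.concl.1 ≠ D.eval v q.concl.2 := by
      unfold Alg.SatQ at hno
      push Not at hno
      exact hno
    obtain ⟨v, hv1, hv2⟩ := hno'
    obtain ⟨k, hk⟩ := exists_bd_list (q.concl :: q.prem)
    have hk1 : ∀ p ∈ q.concl :: q.prem, p.1.subst (tr k) = p.1 ∧ p.2.subst (tr k) = p.2 :=
      hk k le_rfl
    -- the finitely generated subalgebra of `D`
    let f0 : Trm → D.carrier := fun t => D.eval v (t.subst (tr k))
    have hf0 : Hom TA D f0 := by
      have : f0 = fun t => D.eval (fun i => D.eval v (tr k i)) t := by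
        funext t; exact eval_subst D v _ t
      rw [this]; exact hom_eval D _
    obtain ⟨l0, R0, cl0, ι0, -, hs0, hh0, hi0, hι0, hc0⟩ := image_ex D f0 hf0 (hone D hDA)
      (K := (Fin k → A) → A) (tf k) (fun s t hst => hid _ (htf k s t hst) D hDA v)
    have hR0A : Sep R0 (ofH A) := by
      apply sep_of_genQ
      intro q' hq'
      rw [toAlg_ofH] at hq'
      exact satQ_of_inj hi0 hι0 (hDA q' hq')
    have hne0 : cl0 q.concl.1 ≠ cl0 q.concl.2 := by
      intro h
      apply hv2
      have h1 := congrArg ι0 h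
      rw [hc0, hc0] at h1
      simp only [f0] at h1
      rwa [(hk1 q.concl (by simp)).1, (hk1 q.concl (by simp)).2] at h1
    have hpr0 : ∀ p ∈ q.prem, cl0 p.1 = cl0 p.2 := by
      intro p hp
      apply hi0
      rw [hc0, hc0]
      simp only [f0]
      rw [(hk1 p (by simp [hp])).1, (hk1 p (by simp [hp])).2]
      exact hv1 p hp
    obtain ⟨h, hh, hne⟩ := hR0A _ _ hne0
    rw [isHom_iff'] at hh
    -- its image in `A`
    obtain ⟨m, B, clB, ιB, hm, hsB, hhB, hiB, hιB, hcB⟩ := image_ex (Alg.of A)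
      (fun t => h (cl0 t)) (hh.comp hh0) (by simp [Alg.of]) (K := A)
      (fun t => h (cl0 t)) (fun _ _ h => h)
    rw [hcard] at hm
    have hBA : Sep B (ofH A) := by
      intro x y hxy
      refine ⟨ιB, ?_, fun h => hxy (hiB h)⟩
      rw [isHom_iff']
      exact hιB
    have hneB : clB q.concl.1 ≠ clB q.concl.2 := by
      intro h'
      apply hne
      have := congrArg ιB h'
      rwa [hcB, hcB] at this
    have hprB : ∀ p ∈ q.prem, clB p.1 = clB p.2 := by
      intro p hp
      apply hiB
      rw [hcB, hcB, hpr0 p hp]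
    -- `B` satisfies the identities of `K'`
    have hBV : ∀ p : Trm × Trm, (∀ E ∈ K', E.SatI p) → (toAlg B).SatI p := by
      intro p hp
      have h1 : (toAlg R0).SatI p := satI_of_inj hi0 hι0 (hDV p hp)
      choose rep hrep using hs0
      have hwd : ∀ t, clB (rep (cl0 t)) = clB t := by
        intro t
        apply hiB
        rw [hcB, hcB, hrep]
      have hπ : Hom (toAlg R0) (toAlg B) (fun i => clB (rep i)) := by
        refine ⟨fun i j => ?_, fun i j => ?_, fun i j => ?_, ?_, ?_⟩
        · have hc : (toAlg R0).and i j = cl0 (TA.and (rep i) (rep j)) := by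
            rw [hh0.and, hrep, hrep]
          rw [hc, hwd, hhB.and]
        · have hc : (toAlg R0).or i j = cl0 (TA.or (rep i) (rep j)) := by
            rw [hh0.or, hrep, hrep]
          rw [hc, hwd, hhB.or]
        · have hc : (toAlg R0).imp i j = cl0 (TA.imp (rep i) (rep j)) := by
            rw [hh0.imp, hrep, hrep]
          rw [hc, hwd, hhB.imp]
        · have hc : (toAlg R0).zero = cl0 TA.zero := by rw [hh0.zero]
          rw [hc, hwd, hhB.zero]
        · have hc : (toAlg R0).one = cl0 TA.one := by rw [hh0.one]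
          rw [hc, hwd, hhB.one]
      refine satI_of_surj (fun b => ?_) hπ h1
      obtain ⟨t, ht⟩ := hsB b
      exact ⟨cl0 t, by simp only; rw [hwd, ht]⟩
    -- the free algebra of `K'` on `m` generators
    obtain ⟨l, C, cl, hl, hs, hhC, hcl⟩ := quot_ex
      (fun s t => ∀ E ∈ K', E.SatI (s.subst (tr m), t.subst (tr m)))
      ⟨fun _ _ _ _ => rfl, fun h E hE u => (h E hE u).symm,
        fun h h' E hE u => (h E hE u).trans (h' E hE u)⟩
      (fun a a' b b' h h' E hE u => by
        have h1 := h E hE u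
        have h2 := h' E hE u
        simp only [Trm.subst, Alg.eval] at h1 h2 ⊢
        rw [h1, h2])
      (fun a a' b b' h h' E hE u => by
        have h1 := h E hE u
        have h2 := h' E hE u
        simp only [Trm.subst, Alg.eval] at h1 h2 ⊢
        rw [h1, h2])
      (fun a a' b b' h h' E hE u => by
        have h1 := h E hE u
        have h2 := h' E hE u
        simp only [Trm.subst, Alg.eval] at h1 h2 ⊢
        rw [h1, h2])
      (fun E hE u => hone E (hK' hE))
      (K := (Fin m → A) → A) (tf m) (fun s t hst E hE => hid _ (htf m s t hst) E (hK' hE))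
    rw [htfcard] at hl
    have hl' : l ≤ n ^ (n ^ n) :=
      hl.trans (Nat.pow_le_pow_right hn (Nat.pow_le_pow_right hn hm))
    choose rep hrep using hs
    have hCev : ∀ (w : ℕ → Fin l) (t : Trm),
        (toAlg C).eval w t = cl (t.subst (fun i => rep (w i))) := by
      intro w t
      rw [← TA_eval, hhC.eval]
      simp only [hrep]
    have hCQ : toAlg C ∈ K' := by
      intro q' hq' w hw
      rw [hCev, hCev, hcl]
      intro E hE u
      simp only [eval_subst]
      apply hE q' hq'
      intro p hp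
      have h1 := hw p hp
      rw [hCev, hCev, hcl] at h1
      have h2 := h1 E hE u
      simpa only [eval_subst] using h2
    have hCA : Sep C (ofH A) := by
      apply sep_of_genQ
      intro q' hq'
      rw [toAlg_ofH] at hq'
      exact hK' hCQ q' hq'
    have hBC : Sep B C := by
      refine hcrit m hm l hl' B C hBA hCA ?_
      let vB : ℕ → Fin m := fun j => if h : j < m then ⟨j, h⟩ else B.bot
      have hvB : ∀ t : Trm, (toAlg B).eval vB (t.subst (tr m)) = (toAlg B).eval vB t := by
        intro t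
        rw [eval_subst]
        congr 1
        funext i
        simp only [tr, vB]
        split_ifs with h
        · simp [Alg.eval, h]
        · rfl
      have hwd : ∀ t, (toAlg B).eval vB (rep (cl t)) = (toAlg B).eval vB t := by
        intro t
        have h1 := (hcl _ _).1 (hrep (cl t))
        have h2 := hBV _ h1 vB
        simp only [hvB] at h2
        exact h2
      refine ⟨fun i => (toAlg B).eval vB (rep i), fun j => ⟨cl (Trm.var j), ?_⟩, ?_⟩
      · simp only
        rw [hwd]
        simp [Alg.eval, vB]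
      · rw [isHom_iff]
        have hev := hom_eval (toAlg B) vB
        refine ⟨fun i j => ?_, fun i j => ?_, fun i j => ?_, ?_, ?_⟩
        · have hc : (toAlg C).and i j = cl (TA.and (rep i) (rep j)) := by
            rw [hhC.and, hrep, hrep]
          rw [hc, hwd, hev.and]
        · have hc : (toAlg C).or i j = cl (TA.or (rep i) (rep j)) := by
            rw [hhC.or, hrep, hrep]
          rw [hc, hwd, hev.or]
        · have hc : (toAlg C).imp i j = cl (TA.imp (rep i) (rep j)) := by
            rw [hhC.imp, hrep, hrep]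
          rw [hc, hwd, hev.imp]
        · have hc : (toAlg C).zero = cl TA.zero := by rw [hhC.zero]
          rw [hc, hwd, hev.zero]
        · have hc : (toAlg C).one = cl TA.one := by rw [hhC.one]
          rw [hc, hwd, hev.one]
    obtain ⟨g, hg, hgne⟩ := hBC _ _ hneB
    rw [isHom_iff] at hg
    apply hgne
    have hclB : ∀ t, clB t = (toAlg B).eval (fun i => clB (Trm.var i)) t := by
      intro t
      have h1 := hhB.eval Trm.var t
      rw [← h1, TA_eval]
      congr 1
      have : ∀ t : Trm, t.subst Trm.var = t := by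
        intro t
        induction t with
        | var i => rfl
        | zero => rfl
        | one => rfl
        | and s t hs ht => simp only [Trm.subst, hs, ht]
        | or s t hs ht => simp only [Trm.subst, hs, ht]
        | imp s t hs ht => simp only [Trm.subst, hs, ht]
      exact (this t).symm
    have hfin := hCQ q hq (fun i => g (clB (Trm.var i))) (fun p hp => by
      rw [← hg.eval, ← hg.eval, ← hclB, ← hclB, hprB p hp])
    rwa [← hg.eval, ← hg.eval, ← hclB, ← hclB] at hfin

theorem primitive_iff {A : Type} [HeytingAlgebra A] {n : ℕ} (e : A ≃ Fin n) :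
    Primitive (genQ (Alg.of A)) ↔ CritP A n (n ^ (n ^ n)) :=
  ⟨fun h => critP_of_primitive h _ _, fun h => primitive_of_critP e h⟩

end Pool.Agent.Q300.Prim
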